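import Pool.Agent.Y112.SR.Pt

/-!
# Descent of the sign conjecture along tensor products and squares
-/

set_option autoImplicit false
set_option linter.unusedSectionVars false
set_option linter.unusedSimpArgs false
set_option backward.isDefEq.respectTransparency false
set_option backward.defeqAttrib.useBackward true

open CategoryTheory Limits MonoidalCategory

namespace Pool.Agent.Y112.SR

universe v u w

open Functor.LaxMonoidal Functor.OplaxMonoidal

/-- The tensor powers of an object. -/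
def pow {C : Type u} [Category.{v} C] [MonoidalCategory C] (M : C) : ℕ → C
  | 0 => 𝟙_ C
  | n + 1 => pow M n ⊗ M

section

variable {C : Type u} [Category.{v} C] [Preadditive C] [Linear ℚ C] [MonoidalCategory C]
  [SymmetricCategory C] {K : Type w} [Field K] (R : SuperRealisation C K)

lemma R_charZero (R : SuperRealisation C K) : CharZero K := by
  apply charZero_of_inj_zero
  intro n hn
  by_contra hn'
  have h1 : n • ((n : ℚ)⁻¹ • 𝟙 (𝟙_ C)) = 𝟙 (𝟙_ C) := by
    rw [← Nat.cast_smul_eq_nsmul ℚ, smul_smul, mul_inv_cancel₀ (by exact_mod_cast hn'), one_smul]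
  have h2 : 𝟙 (R.H.obj (𝟙_ C)) = 0 := by
    rw [← CategoryTheory.Functor.map_id, ← h1, Functor.map_nsmul, ← Nat.cast_smul_eq_nsmul K, hn,
      zero_smul]
  have h3 : 𝟙 (𝟙_ (ModuleCat.{w} K)) = 0 := by
    rw [← Functor.Monoidal.ε_η R.H, ← Category.id_comp (η R.H), h2, zero_comp, comp_zero]
  have h4 := LinearMap.congr_fun (congrArg ModuleCat.Hom.hom h3) (1 : K)
  exact one_ne_zero (α := K) h4

lemma R_smul [CharZero K] {X Y : C} (q : ℚ) (f : X ⟶ Y) :
    R.H.map (q • f) = (q : K) • R.H.map f := by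
  have h1 : (q.den : K) • R.H.map (q • f) = (q.num : K) • R.H.map f := by
    rw [Nat.cast_smul_eq_nsmul, Int.cast_smul_eq_zsmul, ← Functor.map_nsmul, ← Functor.map_zsmul,
      ← Nat.cast_smul_eq_nsmul ℚ, ← Int.cast_smul_eq_zsmul ℚ, smul_smul, Rat.den_mul_eq_num]
  have h2 : (q.den : K) ≠ 0 := by exact_mod_cast q.den_nz
  rw [Rat.cast_def, div_eq_inv_mul, mul_smul, ← h1, smul_smul, inv_mul_cancel₀ h2, one_smul]

lemma cplus_iff (M : C) : R.CPlus M ↔ ∃ g : M ⟶ M, R.H.map g = R.par M := by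
  have := R_charZero R
  have h2 : (2 : K) ≠ 0 := two_ne_zero
  constructor
  · rintro ⟨f, hf⟩
    refine ⟨(2 : ℚ) • f - 𝟙 M, ?_⟩
    rw [Functor.map_sub, R_smul, CategoryTheory.Functor.map_id]
    push_cast
    rw [hf]
    simp
  · rintro ⟨g, hg⟩
    refine ⟨(2⁻¹ : ℚ) • (𝟙 M + g), ?_⟩
    rw [R_smul, Functor.map_add, CategoryTheory.Functor.map_id, hg, smul_smul]
    push_cast
    rw [mul_inv_cancel₀ h2, one_smul]

lemma cplus_of_isZero (M : C) (h : IsZero (R.H.obj M)) : R.CPlus M :=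
  ⟨0, h.eq_of_src _ _⟩

lemma par_delta (M N : C) : R.par (M ⊗ N) ≫ δ R.H M N = δ R.H M N ≫ (R.par M ⊗ₘ R.par N) := by
  have h1 := congrArg (fun z => δ R.H M N ≫ z ≫ δ R.H M N) (R.par_tensor M N)
  simpa using h1

/-- The listed direction. -/
lemma cplus_tensor {M N : C} (hM : R.CPlus M) (hN : R.CPlus N) : R.CPlus (M ⊗ N) := by
  rw [cplus_iff] at hM hN ⊢
  obtain ⟨g, hg⟩ := hM
  obtain ⟨g', hg'⟩ := hN
  refine ⟨g ⊗ₘ g', ?_⟩
  rw [Functor.Monoidal.map_tensor, hg, hg', ← R.par_tensor, Functor.Monoidal.δ_μ_assoc]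

lemma cplus_retract {M S : C} (i : S ⟶ M) (r : M ⟶ S) (h : i ≫ r = 𝟙 S) (hM : R.CPlus M) :
    R.CPlus S := by
  rw [cplus_iff] at hM ⊢
  obtain ⟨g, hg⟩ := hM
  refine ⟨i ≫ g ≫ r, ?_⟩
  rw [Functor.map_comp, Functor.map_comp, hg, ← R.par_natural, ← Functor.map_comp_assoc, h,
    CategoryTheory.Functor.map_id, Category.id_comp]

/-- If `d par + c` is algebraic then the sign conjecture holds. -/
lemma cplus_of_comb {M : C} (z : M ⟶ M) (d : ℕ) (hd : d ≠ 0) (c : ℚ)
    (h : R.H.map z = (d : K) • R.par M + (c : K) • 𝟙 _) : R.CPlus M := by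
  have := R_charZero R
  have hd' : (d : K) ≠ 0 := by exact_mod_cast hd
  rw [cplus_iff]
  refine ⟨(d : ℚ)⁻¹ • (z - c • 𝟙 M), ?_⟩
  rw [R_smul, Functor.map_sub, R_smul, CategoryTheory.Functor.map_id, h, add_sub_cancel_right,
    smul_smul]
  push_cast
  rw [inv_mul_cancel₀ hd', one_smul]

end

section

variable {C : Type u} [Category.{v} C] [Preadditive C] [Linear ℚ C] [MonoidalCategory C]
  [SymmetricCategory C] [RightRigidCategory C] {K : Type w} [Field K] (R : SuperRealisation C K)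

lemma pt_par {M N : C} : pt R (R.par M ⊗ₘ R.par N) =
    (Module.finrank K (R.H.obj N) : K) • R.par M := by
  have := R_charZero R
  have h0 := R.finite N
  rw [pt_tensor R two_ne_zero, R.par_sq, ModuleCat.hom_id, LinearMap.trace_id]

lemma finrank_ne_zero {N : C} (h : ¬ IsZero (R.H.obj N)) : Module.finrank K (R.H.obj N) ≠ 0 := by
  have h0 := R.finite N
  intro h1
  apply h
  rw [Module.finrank_zero_iff] at h1
  exact ModuleCat.isZero_of_subsingleton _

/-- The sign conjecture descends along tensor products. -/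
lemma cplus_of_tensor {M N : C} (hN : ¬ IsZero (R.H.obj N)) (h : R.CPlus (M ⊗ N)) :
    R.CPlus M := by
  rw [cplus_iff] at h
  obtain ⟨y, hy⟩ := h
  apply cplus_of_comb R (ptr y) _ (finrank_ne_zero R hN) 0
  rw [map_ptr, hy, par_delta, Functor.Monoidal.μ_δ_assoc, pt_par]
  simp

lemma cplus_braid {M N : C} (h : R.CPlus (M ⊗ N)) : R.CPlus (N ⊗ M) :=
  cplus_retract R (β_ N M).hom (β_ N M).inv (by simp) h

lemma symm_par (M : C) : (μ R.H M M ≫ R.H.map (β_ M M).hom ≫ δ R.H M M) ≫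
      R.H.obj M ◁ R.par M = R.par M ▷ R.H.obj M ≫
      (μ R.H M M ≫ R.H.map (β_ M M).hom ≫ δ R.H M M) := by
  have := R_charZero R
  have h2 : (2 : K) ≠ 0 := two_ne_zero
  have h1 : (2 : K) • (μ R.H M M ≫ R.H.map (β_ M M).hom ≫ δ R.H M M) =
      (𝟙 _ + R.par M ▷ R.H.obj M + R.H.obj M ◁ R.par M - (R.par M ⊗ₘ R.par M)) ≫
      (β_ (R.H.obj M) (R.H.obj M)).hom := by
    rw [← Category.assoc, ← Linear.smul_comp, R.symm]
    simp
  have h3 : R.par M ▷ R.H.obj M ≫ R.par M ▷ R.H.obj M = 𝟙 _ := by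
    rw [← comp_whiskerRight, R.par_sq, id_whiskerRight]
  have h4 : (𝟙 _ + R.par M ▷ R.H.obj M + R.H.obj M ◁ R.par M - (R.par M ⊗ₘ R.par M)) ≫
      R.par M ▷ R.H.obj M = R.par M ▷ R.H.obj M ≫
      (𝟙 _ + R.par M ▷ R.H.obj M + R.H.obj M ◁ R.par M - (R.par M ⊗ₘ R.par M)) := by
    simp only [Preadditive.sub_comp, Preadditive.add_comp, Preadditive.comp_sub,
      Preadditive.comp_add, Category.id_comp, Category.comp_id]
    have e1 : R.H.obj M ◁ R.par M ≫ R.par M ▷ R.H.obj M =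
        R.par M ▷ R.H.obj M ≫ R.H.obj M ◁ R.par M := by rw [whisker_exchange]
    have e2 : (R.par M ⊗ₘ R.par M) ≫ R.par M ▷ R.H.obj M =
        R.par M ▷ R.H.obj M ≫ (R.par M ⊗ₘ R.par M) := by
      rw [MonoidalCategory.tensorHom_def, Category.assoc, e1]
    rw [e1, e2]
  generalize μ R.H M M ≫ R.H.map (β_ M M).hom ≫ δ R.H M M = T at h1 ⊢
  have h5 : (2 : K) • (T ≫ R.H.obj M ◁ R.par M) = (2 : K) • (R.par M ▷ R.H.obj M ≫ T) := by
    rw [← Linear.smul_comp, ← Linear.comp_smul, h1, Category.assoc,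
      ← BraidedCategory.braiding_naturality_left, ← Category.assoc, h4, Category.assoc]
  have h6 := congrArg (fun z => (2 : K)⁻¹ • z) h5
  simpa only [smul_smul, inv_mul_cancel₀ h2, one_smul] using h6

lemma pt_symm_par (M : C) : pt R ((μ R.H M M ≫ R.H.map (β_ M M).hom ≫ δ R.H M M) ≫
      (R.par M ⊗ₘ R.par M)) = 𝟙 _ := by
  rw [MonoidalCategory.tensorHom_def', ← Category.assoc, symm_par, Category.assoc, pt_comp,
    ← map_ptr, ptr_symm, CategoryTheory.Functor.map_id, Category.id_comp, R.par_sq]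

lemma square_aux {M S : C} (i : S ⟶ M ⊗ M) (r : M ⊗ M ⟶ S) (h : R.CPlus S) :
    ∃ y : M ⊗ M ⟶ M ⊗ M, R.H.map y = R.H.map (r ≫ i) ≫ R.par (M ⊗ M) := by
  rw [cplus_iff] at h
  obtain ⟨g, hg⟩ := h
  refine ⟨r ≫ g ≫ i, ?_⟩
  rw [Functor.map_comp, Functor.map_comp, hg, Functor.map_comp, Category.assoc, R.par_natural]

/-- The sign conjecture descends from the symmetric square. -/
lemma cplus_of_sym {M S : C} (hS : IsSymSquare M S) (h : R.CPlus S) : R.CPlus M := by
  by_cases h0 : IsZero (R.H.obj M)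
  · exact cplus_of_isZero R M h0
  have := R_charZero R
  obtain ⟨i, r, -, he⟩ := hS
  obtain ⟨y, hy⟩ := square_aux R i r h
  apply cplus_of_comb R (ptr ((2 : ℚ) • y)) _ (finrank_ne_zero R h0) 1
  have h1 : R.H.map ((2 : ℚ) • y) = (𝟙 _ + R.H.map (β_ M M).hom) ≫ R.par (M ⊗ M) := by
    rw [R_smul, hy, he, R_smul, Linear.smul_comp, smul_smul, Functor.map_add,
      CategoryTheory.Functor.map_id]
    push_cast
    rw [mul_inv_cancel₀ (two_ne_zero : (2 : K) ≠ 0), one_smul]
  rw [map_ptr, h1, Category.assoc, par_delta, Preadditive.add_comp, Preadditive.comp_add,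
    Category.id_comp, Functor.Monoidal.μ_δ_assoc, pt_add, pt_par]
  congr 1
  have h2 := pt_symm_par R M
  simp only [Category.assoc] at h2
  rw [h2]
  simp

/-- The sign conjecture descends from the exterior square. -/
lemma cplus_of_ext {M S : C} (hS : IsExtSquare M S) (h : R.CPlus S) : R.CPlus M := by
  by_cases h0 : IsZero (R.H.obj M)
  · exact cplus_of_isZero R M h0
  have := R_charZero R
  obtain ⟨i, r, -, he⟩ := hS
  obtain ⟨y, hy⟩ := square_aux R i r h
  apply cplus_of_comb R (ptr ((2 : ℚ) • y)) _ (finrank_ne_zero R h0) (-1)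
  have h1 : R.H.map ((2 : ℚ) • y) = (𝟙 _ - R.H.map (β_ M M).hom) ≫ R.par (M ⊗ M) := by
    rw [R_smul, hy, he, R_smul, Linear.smul_comp, smul_smul, Functor.map_sub,
      CategoryTheory.Functor.map_id]
    push_cast
    rw [mul_inv_cancel₀ (two_ne_zero : (2 : K) ≠ 0), one_smul]
  rw [map_ptr, h1, Category.assoc, par_delta, Preadditive.sub_comp, Preadditive.comp_sub,
    Category.id_comp, Functor.Monoidal.μ_δ_assoc, sub_eq_add_neg, pt_add, pt_neg, pt_par]
  congr 1
  have h2 := pt_symm_par R M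
  simp only [Category.assoc] at h2
  rw [h2]
  simp

lemma cplus_pow {M : C} (h : R.CPlus M) (n : ℕ) : R.CPlus (pow M n) := by
  induction n with
  | zero =>
    rw [cplus_iff]
    exact ⟨𝟙 _, by rw [pow, R.par_unit, CategoryTheory.Functor.map_id]⟩
  | succ n ih => exact cplus_tensor R ih h

lemma not_isZero_tensor {M N : C} (hM : ¬ IsZero (R.H.obj M)) (hN : ¬ IsZero (R.H.obj N)) :
    ¬ IsZero (R.H.obj (M ⊗ N)) := by
  intro h
  have h0 := R.finite M
  have h0' := R.finite N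
  have h1 : IsZero (R.H.obj M ⊗ R.H.obj N) := h.of_iso (Functor.Monoidal.μIso R.H M N)
  have h2 : Module.finrank K (TensorProduct K (R.H.obj M) (R.H.obj N)) = 0 := by
    have := ModuleCat.subsingleton_of_isZero h1
    exact Module.finrank_zero_of_subsingleton
  rw [Module.finrank_tensorProduct] at h2
  rcases Nat.mul_eq_zero.mp h2 with h3 | h3
  · exact finrank_ne_zero R hM h3
  · exact finrank_ne_zero R hN h3

lemma not_isZero_pow {M : C} (hM : ¬ IsZero (R.H.obj M)) (n : ℕ) :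
    ¬ IsZero (R.H.obj (pow M n)) := by
  induction n with
  | zero =>
    intro h
    have h1 : IsZero (𝟙_ (ModuleCat.{w} K)) := h.of_iso (Functor.Monoidal.εIso R.H)
    have h4 := LinearMap.congr_fun (congrArg ModuleCat.Hom.hom
      ((IsZero.iff_id_eq_zero _).mp h1)) (1 : K)
    exact one_ne_zero (α := K) h4
  | succ n ih => exact not_isZero_tensor R ih hM

lemma cplus_of_pow {M : C} (n : ℕ) (h : R.CPlus (pow M (n + 1))) : R.CPlus M := by
  by_cases h0 : IsZero (R.H.obj M)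
  · exact cplus_of_isZero R M h0
  · exact cplus_of_tensor R (not_isZero_pow R h0 n) (cplus_braid R h)

end

end Pool.Agent.Y112.SR
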