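import Mathlib

/-!
# Symmetric monoidal functors to super vector spaces
-/

set_option autoImplicit false

open CategoryTheory Limits MonoidalCategory

namespace Pool.Agent.Y112.SR

universe v u w

section

variable (C : Type u) [Category.{v} C] [Preadditive C] [MonoidalCategory C] [SymmetricCategory C]
  (K : Type w) [Field K]

/-- A symmetric monoidal functor from `C` to finite dimensional super vector spaces over `K`. The
super vector space attached to `X` is the vector space `H X`, with the involution `par X` which is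
`1` on the even part and `-1` on the odd part. The functor is monoidal and additive, the involution
is natural and compatible with the tensor product, and the symmetry of `C` corresponds to the
symmetry `v ⊗ w ↦ (-1) ^ (|v| |w|) w ⊗ v` of super vector spaces, that is, to the linear map
`v ⊗ w ↦ (w ⊗ v + w ⊗ v' + w' ⊗ v - w' ⊗ v') / 2`, where `v' = par v` and `w' = par w`. -/
structure SuperRealisation where
  /-- the vector space of the realisation -/
  H : C ⥤ ModuleCat.{w} K
  [additive : H.Additive]
  [monoidal : H.Monoidal]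
  finite (X : C) : Module.Finite K (H.obj X)
  /-- the involution whose eigenspaces are the even and the odd part -/
  par (X : C) : H.obj X ⟶ H.obj X
  par_sq (X : C) : par X ≫ par X = 𝟙 _
  par_natural {X Y : C} (f : X ⟶ Y) : H.map f ≫ par Y = par X ≫ H.map f
  par_unit : par (𝟙_ C) = 𝟙 _
  par_tensor (X Y : C) : Functor.LaxMonoidal.μ H X Y ≫ par (X ⊗ Y) =
    (par X ⊗ₘ par Y) ≫ Functor.LaxMonoidal.μ H X Y
  symm (X Y : C) : (2 : K) • (Functor.LaxMonoidal.μ H X Y ≫ H.map (β_ X Y).hom) =
    (𝟙 _ + par X ▷ H.obj Y + H.obj X ◁ par Y - (par X ⊗ₘ par Y)) ≫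
      (β_ (H.obj X) (H.obj Y)).hom ≫ Functor.LaxMonoidal.μ H Y X

attribute [instance] SuperRealisation.additive SuperRealisation.monoidal SuperRealisation.finite

variable {C K}

/-- The sign conjecture `C⁺` for `M`: the projector to the even part of the realisation of `M` is
algebraic, that is, the image of an endomorphism of `M`. -/
def SuperRealisation.CPlus (R : SuperRealisation C K) (M : C) : Prop :=
  ∃ f : M ⟶ M, (2 : K) • R.H.map f = 𝟙 _ + R.par M

/-- `S` is the symmetric square of `M`: the direct summand of `M ⊗ M` which is cut out by the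
idempotent `(1 + β) / 2`. -/
def IsSymSquare [Linear ℚ C] (M S : C) : Prop :=
  ∃ (i : S ⟶ M ⊗ M) (r : M ⊗ M ⟶ S), i ≫ r = 𝟙 S ∧
    r ≫ i = (2⁻¹ : ℚ) • (𝟙 (M ⊗ M) + (β_ M M).hom)

/-- `S` is the exterior square of `M`: the direct summand of `M ⊗ M` which is cut out by the
idempotent `(1 - β) / 2`. -/
def IsExtSquare [Linear ℚ C] (M S : C) : Prop :=
  ∃ (i : S ⟶ M ⊗ M) (r : M ⊗ M ⟶ S), i ≫ r = 𝟙 S ∧
    r ≫ i = (2⁻¹ : ℚ) • (𝟙 (M ⊗ M) - (β_ M M).hom)

end

end Pool.Agent.Y112.SR
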