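import Pool.Agent.Y112.SR.PTr

/-!
# The realisation of partial traces
-/

set_option autoImplicit false
set_option linter.unusedSectionVars false
set_option linter.unusedSimpArgs false
set_option backward.isDefEq.respectTransparency false
set_option backward.defeqAttrib.useBackward true

open CategoryTheory Limits MonoidalCategory

namespace Pool.Agent.Y112.SR

universe v u w

open Functor.LaxMonoidal Functor.OplaxMonoidal

section

variable {C : Type u} [Category.{v} C] [Preadditive C] [MonoidalCategory C] [SymmetricCategory C]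
  [RightRigidCategory C] {K : Type w} [Field K] (R : SuperRealisation C K)

/-- The coevaluation of the realisation. -/
noncomputable def coe (N : C) : 𝟙_ (ModuleCat.{w} K) ⟶ R.H.obj N ⊗ R.H.obj Nᘁ :=
  ε R.H ≫ R.H.map (η_ N Nᘁ) ≫ δ R.H N Nᘁ

/-- The twisted evaluation of the realisation. -/
noncomputable def eva (N : C) : R.H.obj N ⊗ R.H.obj Nᘁ ⟶ 𝟙_ (ModuleCat.{w} K) :=
  μ R.H N Nᘁ ≫ R.H.map ((β_ N Nᘁ).hom ≫ ε_ N Nᘁ) ≫ η R.H

/-- The evaluation of the realisation. -/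
noncomputable def evb (N : C) : R.H.obj Nᘁ ⊗ R.H.obj N ⟶ 𝟙_ (ModuleCat.{w} K) :=
  μ R.H Nᘁ N ≫ R.H.map (ε_ N Nᘁ) ≫ η R.H

/-- The partial trace in super vector spaces. -/
noncomputable def pt {M N : C} (x : R.H.obj M ⊗ R.H.obj N ⟶ R.H.obj M ⊗ R.H.obj N) :
    R.H.obj M ⟶ R.H.obj M :=
  (ρ_ _).inv ≫ R.H.obj M ◁ coe R N ≫ (α_ _ _ _).inv ≫ x ▷ R.H.obj Nᘁ ≫ (α_ _ _ _).hom ≫
    R.H.obj M ◁ eva R N ≫ (ρ_ _).hom

lemma map_ptr {M N : C} (x : M ⊗ N ⟶ M ⊗ N) :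
    R.H.map (ptr x) = pt R (μ R.H M N ≫ R.H.map x ≫ δ R.H M N) := by
  simp only [ptr, pt, coe, eva, Functor.map_comp, Functor.Monoidal.map_whiskerLeft,
    Functor.Monoidal.map_whiskerRight, Functor.Monoidal.map_associator,
    Functor.Monoidal.map_associator_inv, Functor.Monoidal.map_rightUnitor,
    Functor.Monoidal.map_rightUnitor_inv, Category.assoc, Functor.Monoidal.μ_δ_assoc,
    comp_whiskerRight, MonoidalCategory.whiskerLeft_comp]

lemma zigzag (N : C) : coe R N ▷ R.H.obj N ≫ (α_ _ _ _).hom ≫ R.H.obj N ◁ evb R N =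
    (λ_ (R.H.obj N)).hom ≫ (ρ_ (R.H.obj N)).inv := by
  rw [← cancel_mono (ρ_ (R.H.obj N)).hom]
  simp only [Category.assoc, Iso.inv_hom_id, Category.comp_id]
  have h3 : (ρ_ (R.H.obj N)).hom = R.H.obj N ◁ ε R.H ≫ μ R.H N (𝟙_ C) ≫ R.H.map (ρ_ N).hom :=
    Functor.LaxMonoidal.right_unitality R.H N
  rw [h3, coe, evb]
  simp only [comp_whiskerRight, MonoidalCategory.whiskerLeft_comp, Category.assoc]
  have h4 : R.H.obj N ◁ η R.H ≫ R.H.obj N ◁ ε R.H = 𝟙 _ := by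
    rw [← MonoidalCategory.whiskerLeft_comp, Functor.Monoidal.η_ε, MonoidalCategory.whiskerLeft_id]
  rw [reassoc_of% h4, μ_natural_right_assoc]
  have h5 := Functor.LaxMonoidal.associativity (F := R.H) N Nᘁ N
  have h6 : (δ R.H N Nᘁ ▷ R.H.obj N) ≫ (μ R.H N Nᘁ ▷ R.H.obj N) = 𝟙 _ := by
    rw [← comp_whiskerRight, Functor.Monoidal.δ_μ, id_whiskerRight]
  rw [← reassoc_of% h5, reassoc_of% h6, μ_natural_left_assoc, ← Functor.map_comp,
    ← Functor.map_comp, ← Functor.map_comp]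
  have h7 : η_ N Nᘁ ▷ N ≫ (α_ N Nᘁ N).hom ≫ N ◁ ε_ N Nᘁ ≫ (ρ_ N).hom = (λ_ N).hom := by
    rw [ExactPairing.evaluation_coevaluation_assoc]
    simp
  rw [h7]
  exact (Functor.LaxMonoidal.left_unitality R.H N).symm

lemma evb_even (N : C) : (R.par Nᘁ ⊗ₘ R.par N) ≫ evb R N = evb R N := by
  rw [evb, ← Category.assoc, ← R.par_tensor, Category.assoc, ← Category.assoc (R.par _),
    ← R.par_natural, Category.assoc, R.par_unit, Category.id_comp]

lemma eva_eq (h2 : (2 : K) ≠ 0) (N : C) : eva R N =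
    R.par N ▷ R.H.obj Nᘁ ≫ (β_ (R.H.obj N) (R.H.obj Nᘁ)).hom ≫ evb R N := by
  have h3 : (2 : K) • eva R N = (𝟙 _ + R.par N ▷ R.H.obj Nᘁ + R.H.obj N ◁ R.par Nᘁ -
      (R.par N ⊗ₘ R.par Nᘁ)) ≫ (β_ (R.H.obj N) (R.H.obj Nᘁ)).hom ≫ evb R N := by
    rw [eva, evb, Functor.map_comp, Category.assoc, ← Category.assoc (μ R.H N Nᘁ),
      ← Linear.smul_comp, R.symm]
    simp only [Category.assoc]
  have h4 : (R.par N ⊗ₘ R.par Nᘁ) ≫ (β_ (R.H.obj N) (R.H.obj Nᘁ)).hom ≫ evb R N =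
      (β_ (R.H.obj N) (R.H.obj Nᘁ)).hom ≫ evb R N := by
    rw [BraidedCategory.braiding_naturality_assoc, evb_even]
  have h5 : R.H.obj N ◁ R.par Nᘁ ≫ (β_ (R.H.obj N) (R.H.obj Nᘁ)).hom ≫ evb R N =
      R.par N ▷ R.H.obj Nᘁ ≫ (β_ (R.H.obj N) (R.H.obj Nᘁ)).hom ≫ evb R N := by
    have h6 : R.par N ▷ R.H.obj Nᘁ ≫ (R.par N ⊗ₘ R.par Nᘁ) = R.H.obj N ◁ R.par Nᘁ := by
      rw [MonoidalCategory.tensorHom_def, ← Category.assoc, ← comp_whiskerRight, R.par_sq,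
        id_whiskerRight, Category.id_comp]
    rw [← h6, Category.assoc, h4]
  have h7 : (2 : K) • eva R N = (2 : K) •
      (R.par N ▷ R.H.obj Nᘁ ≫ (β_ (R.H.obj N) (R.H.obj Nᘁ)).hom ≫ evb R N) := by
    rw [h3, Preadditive.sub_comp, Preadditive.add_comp, Preadditive.add_comp, h4, h5,
      Category.id_comp, two_smul]
    abel
  have h8 := congrArg (fun z => (2 : K)⁻¹ • z) h7
  simpa only [smul_smul, inv_mul_cancel₀ h2, one_smul] using h8

end

end Pool.Agent.Y112.SR
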