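import Pool.Agent.Y112.SR.Defs
import Pool.Agent.Y116.MT.Trace

/-!
# Partial traces and their realisations
-/

set_option autoImplicit false
set_option linter.unusedSectionVars false
set_option linter.unusedSimpArgs false
set_option backward.isDefEq.respectTransparency false
set_option backward.defeqAttrib.useBackward true

open CategoryTheory Limits MonoidalCategory

namespace Pool.Agent.Y112.SR

universe v u w

open Functor.LaxMonoidal

section Partial

variable {C : Type u} [Category.{v} C] [MonoidalCategory C] [SymmetricCategory C]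
  [RightRigidCategory C]

/-- The partial trace over the second factor. -/
def ptr {M N : C} (x : M ⊗ N ⟶ M ⊗ N) : M ⟶ M :=
  (ρ_ M).inv ≫ M ◁ η_ N Nᘁ ≫ (α_ M N Nᘁ).inv ≫ x ▷ Nᘁ ≫ (α_ M N Nᘁ).hom ≫
    M ◁ ((β_ N Nᘁ).hom ≫ ε_ N Nᘁ) ≫ (ρ_ M).hom

/-- The partial trace of the symmetry is the identity. -/
lemma ptr_symm (M : C) : ptr (β_ M M).hom = 𝟙 M := by
  have h1 := BraidedCategory.hexagon_forward M M Mᘁ
  rw [ptr, MonoidalCategory.whiskerLeft_comp]
  simp only [Category.assoc]
  rw [← reassoc_of% h1]
  simp only [Iso.inv_hom_id_assoc]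
  rw [BraidedCategory.braiding_naturality_right_assoc, ExactPairing.evaluation_coevaluation_assoc]
  simp

end Partial

end Pool.Agent.Y112.SR
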