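import Pool.Agent.Y112.SR.Lin

/-!
# Computation of partial traces in super vector spaces
-/

set_option autoImplicit false
set_option linter.unusedSectionVars false
set_option linter.unusedSimpArgs false
set_option backward.isDefEq.respectTransparency false
set_option backward.defeqAttrib.useBackward true

open CategoryTheory Limits MonoidalCategory

namespace Pool.Agent.Y112.SR

universe v u w

open Functor.LaxMonoidal Functor.OplaxMonoidal

section

variable {C : Type u} [Category.{v} C] [Preadditive C] [MonoidalCategory C] [SymmetricCategory C]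
  [RightRigidCategory C] {K : Type w} [Field K] (R : SuperRealisation C K)

lemma pt_add {M N : C} (x y : R.H.obj M ⊗ R.H.obj N ⟶ R.H.obj M ⊗ R.H.obj N) :
    pt R (x + y) = pt R x + pt R y := by
  simp [pt, MonoidalPreadditive.add_whiskerRight]

lemma pt_neg {M N : C} (x : R.H.obj M ⊗ R.H.obj N ⟶ R.H.obj M ⊗ R.H.obj N) :
    pt R (-x) = - pt R x := by
  rw [eq_neg_iff_add_eq_zero, ← pt_add, neg_add_cancel]
  simp [pt]

lemma pt_comp {M N : C} (a b : R.H.obj M ⟶ R.H.obj M)
    (x : R.H.obj M ⊗ R.H.obj N ⟶ R.H.obj M ⊗ R.H.obj N) :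
    pt R (a ▷ R.H.obj N ≫ x ≫ b ▷ R.H.obj N) = a ≫ pt R x ≫ b := by
  simp only [pt, comp_whiskerRight, Category.assoc]
  rw [associator_naturality_left_assoc, ← whisker_exchange_assoc, rightUnitor_naturality,
    ← associator_inv_naturality_left_assoc, whisker_exchange_assoc,
    ← rightUnitor_inv_naturality_assoc]

/-- A scalar endomorphism of the unit. -/
lemma unit_hom (c : 𝟙_ (ModuleCat.{w} K) ⟶ 𝟙_ (ModuleCat.{w} K)) :
    c = (c.hom (1 : K)) • 𝟙 _ := by
  apply ModuleCat.hom_ext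
  apply LinearMap.ext_ring
  change c.hom (1 : K) = (c.hom (1 : K)) • (1 : K)
  simp

lemma pt_tensor (h2 : (2 : K) ≠ 0) {M N : C} (f : R.H.obj M ⟶ R.H.obj M)
    (g : R.H.obj N ⟶ R.H.obj N) :
    pt R (f ⊗ₘ g) = (LinearMap.trace K (R.H.obj N) (g ≫ R.par N).hom) • f := by
  have h0 := R.finite N
  have h1 := Pool.Agent.Y116.MT.vec_trace (coe R N) (evb R N) (zigzag R N) (g ≫ R.par N)
  have h3 : coe R N ≫ g ▷ R.H.obj Nᘁ ≫ eva R N =
      (LinearMap.trace K (R.H.obj N) (g ≫ R.par N).hom) • 𝟙 _ := by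
    rw [eva_eq R h2, ← h1, ← unit_hom]
    simp only [comp_whiskerRight, Category.assoc]
  have h4 : f ⊗ₘ g = f ▷ R.H.obj N ≫ R.H.obj M ◁ g ≫ (𝟙 _) ▷ R.H.obj N := by
    rw [MonoidalCategory.tensorHom_def, id_whiskerRight, Category.comp_id]
  rw [h4, pt_comp]
  have h5 : pt R (R.H.obj M ◁ g) = (ρ_ _).inv ≫ R.H.obj M ◁ (coe R N ≫ g ▷ R.H.obj Nᘁ ≫ eva R N) ≫
      (ρ_ _).hom := by
    simp only [pt, MonoidalCategory.whiskerLeft_comp, Category.assoc]
    rw [whisker_assoc_assoc]
    simp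
  rw [h5, h3, Category.comp_id]
  simp

end

end Pool.Agent.Y112.SR
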